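import Pool.Agent.helper52.HY.Spec

/-! Project hy:, module CLO (two close branches contradict W+). -/

set_option autoImplicit false

open Complex Metric Set Filter Topology MeasureTheory
open Pool.Agent.helper98.ILF Pool.Agent.helper16.Multibrot

noncomputable section

namespace HY

/-- a holomorphic inverse of an injective holomorphic function on the disc. -/
theorem CLO_inv (hKO0 : V3.KO0_stmt) {F : ℂ → ℂ} (hF : DifferentiableOn ℂ F UD)
    (hinj : InjOn F UD) :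
    ∃ g : ℂ → ℂ, (∀ x ∈ UD, g (F x) = x) ∧ (∀ x ∈ UD, DifferentiableAt ℂ g (F x)) := by
  have hne0 : UD.Nonempty := ⟨0, by simp [UD]⟩
  have hop : IsOpen UD := isOpen_ball
  have hg : ∀ x ∈ UD, Function.invFunOn F UD (F x) = x := fun x hx =>
    Function.invFunOn_apply_eq (f := F) hx |> fun h =>
      hinj (Function.invFunOn_apply_mem (f := F) hx) hx h
  refine ⟨Function.invFunOn F UD, hg, ?_⟩
  intro x hx
  set g := Function.invFunOn F UD with hgdef
  have han : AnalyticAt ℂ F x := hF.analyticAt (hop.mem_nhds hx)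
  have hne : deriv F x ≠ 0 := hKO0 F UD hop hF hinj _ hx
  have hst : HasStrictDerivAt F (deriv F x) x := han.hasStrictDerivAt
  have hmap : Filter.map F (𝓝 x) = 𝓝 (F x) := hst.map_nhds_eq hne
  have hgx : g (F x) = x := hg x hx
  have hcont : ContinuousAt g (F x) := by
    have e1 : Tendsto (g ∘ F) (𝓝 x) (𝓝 x) := by
      refine Tendsto.congr' ?_ tendsto_id
      have e2 : ∀ᶠ y in 𝓝 x, y ∈ UD := hop.mem_nhds hx
      filter_upwards [e2] with y hy
      exact (hg y hy).symm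
    have e4 : Tendsto g (Filter.map F (𝓝 x)) (𝓝 x) := by
      rw [tendsto_map'_iff]
      exact e1
    rw [hmap] at e4
    unfold ContinuousAt
    rw [hgx]
    exact e4
  have hst' : HasDerivAt F (deriv F x) (g (F x)) := by
    rw [hgx]; exact hst.hasDerivAt
  refine (HasDerivAt.of_local_left_inverse hcont hst' hne ?_).differentiableAt
  have e5 : ∀ᶠ y in Filter.map F (𝓝 x), F (g y) = y := by
    rw [Filter.eventually_map]
    filter_upwards [hop.mem_nhds hx] with y hy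
    rw [hg y hy]
  rw [hmap] at e5
  exact e5

theorem CLO_ne (p q : ℂ) (hp : ‖p‖ < 1) (hq : ‖q‖ < 1) :
    (1 : ℂ) - (starRingEnd ℂ) p * q ≠ 0 := by
  intro h0
  have h1 : (starRingEnd ℂ) p * q = 1 := by linear_combination -h0
  have h2 : ‖(starRingEnd ℂ) p * q‖ = 1 := by rw [h1]; simp
  rw [norm_mul, RCLike.norm_conj] at h2
  nlinarith [norm_nonneg p, norm_nonneg q]

theorem CLO_mob (a a' y : ℂ) (ha : ‖a‖ < 1) (ha' : ‖a'‖ < 1) (hy : ‖y‖ < 1)
    (hδ : ‖T a a'‖ ≤ 1 / 4) (hv : ‖T a' y‖ ≤ 1 / 2) :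
    ‖T a y - T a' y‖ ≤ 3 * ‖T a a'‖ := by
  have hD0 := CLO_ne a a' ha ha'
  have hE0 := CLO_ne a y ha hy
  have hF0 := CLO_ne a' y ha' hy
  have e1 : T a a' * (1 - (starRingEnd ℂ) a * a') = a' - a := div_mul_cancel₀ _ hD0
  have e2 : T a' y * (1 - (starRingEnd ℂ) a' * y) = y - a' := div_mul_cancel₀ _ hF0
  have e3 : T a y * (1 - (starRingEnd ℂ) a * y) = y - a := div_mul_cancel₀ _ hE0
  generalize T a a' = δ at *
  generalize T a' y = v at *
  generalize T a y = t at *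
  set D : ℂ := 1 - (starRingEnd ℂ) a * a' with hD
  have e4 : (starRingEnd ℂ) δ * (starRingEnd ℂ) D = (starRingEnd ℂ) a' - (starRingEnd ℂ) a := by
    rw [← map_mul, e1, map_sub]
  have e5 : (starRingEnd ℂ) D = 1 - a * (starRingEnd ℂ) a' := by
    simp [hD]
  have e6 : (starRingEnd ℂ) D - D = (starRingEnd ℂ) a * (δ * D) -
      a * ((starRingEnd ℂ) δ * (starRingEnd ℂ) D) := by
    rw [e1, e4, e5, hD]; ring
  have e7 : t * (D + v * ((starRingEnd ℂ) δ * (starRingEnd ℂ) D)) =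
      v * (starRingEnd ℂ) D + δ * D := by
    rw [e4, e1, e5, hD]
    linear_combination (1 + v * (starRingEnd ℂ) a') * e3 -
      (1 + t * (starRingEnd ℂ) a) * e2
  have e8 : (t - v) * (D + v * ((starRingEnd ℂ) δ * (starRingEnd ℂ) D)) =
      v * ((starRingEnd ℂ) a * (δ * D) - a * ((starRingEnd ℂ) δ * (starRingEnd ℂ) D)) + δ * D -
        v ^ 2 * ((starRingEnd ℂ) δ * (starRingEnd ℂ) D) := by
    rw [← e6]
    linear_combination e7
  have hDn : 0 < ‖D‖ := norm_pos_iff.mpr hD0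
  have hc : ‖(starRingEnd ℂ) δ * (starRingEnd ℂ) D‖ = ‖δ‖ * ‖D‖ := by
    rw [norm_mul, RCLike.norm_conj, RCLike.norm_conj]
  have h1 : ‖v * ((starRingEnd ℂ) a * (δ * D) - a * ((starRingEnd ℂ) δ * (starRingEnd ℂ) D)) + δ * D -
        v ^ 2 * ((starRingEnd ℂ) δ * (starRingEnd ℂ) D)‖ ≤ 9 / 4 * (‖δ‖ * ‖D‖) := by
    have hp0 : 0 ≤ ‖δ‖ * ‖D‖ := by positivity
    have k1 : ‖(starRingEnd ℂ) a * (δ * D) - a * ((starRingEnd ℂ) δ * (starRingEnd ℂ) D)‖ ≤
        2 * (‖δ‖ * ‖D‖) := by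
      refine (norm_sub_le _ _).trans ?_
      rw [norm_mul, norm_mul a, hc, RCLike.norm_conj, norm_mul]
      nlinarith [norm_nonneg a]
    have k2 : ‖v * ((starRingEnd ℂ) a * (δ * D) - a * ((starRingEnd ℂ) δ * (starRingEnd ℂ) D))‖ ≤
        ‖δ‖ * ‖D‖ := by
      rw [norm_mul]
      have := mul_le_mul hv k1 (norm_nonneg _) (by norm_num)
      linarith
    have k3 : ‖v ^ 2 * ((starRingEnd ℂ) δ * (starRingEnd ℂ) D)‖ ≤ 1 / 4 * (‖δ‖ * ‖D‖) := by
      rw [norm_mul, hc, norm_pow]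
      have : ‖v‖ ^ 2 ≤ 1 / 4 := by nlinarith [norm_nonneg v]
      exact mul_le_mul_of_nonneg_right this hp0
    have k4 : ‖δ * D‖ = ‖δ‖ * ‖D‖ := norm_mul _ _
    calc _ ≤ ‖v * ((starRingEnd ℂ) a * (δ * D) - a * ((starRingEnd ℂ) δ * (starRingEnd ℂ) D)) + δ * D‖ +
          ‖v ^ 2 * ((starRingEnd ℂ) δ * (starRingEnd ℂ) D)‖ := norm_sub_le _ _
      _ ≤ (‖v * ((starRingEnd ℂ) a * (δ * D) - a * ((starRingEnd ℂ) δ * (starRingEnd ℂ) D))‖ +
          ‖δ * D‖) + ‖v ^ 2 * ((starRingEnd ℂ) δ * (starRingEnd ℂ) D)‖ := by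
            gcongr; exact norm_add_le _ _
      _ ≤ 9 / 4 * (‖δ‖ * ‖D‖) := by rw [k4]; linarith
  have h2 : 7 / 8 * ‖D‖ ≤ ‖D + v * ((starRingEnd ℂ) δ * (starRingEnd ℂ) D)‖ := by
    have k1 : ‖v * ((starRingEnd ℂ) δ * (starRingEnd ℂ) D)‖ ≤ 1 / 8 * ‖D‖ := by
      rw [norm_mul, hc]
      have : ‖v‖ * ‖δ‖ ≤ 1 / 2 * (1 / 4) := mul_le_mul hv hδ (norm_nonneg _) (by norm_num)
      nlinarith
    have k2 := norm_sub_norm_le D (-(v * ((starRingEnd ℂ) δ * (starRingEnd ℂ) D)))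
    rw [norm_neg, sub_neg_eq_add] at k2
    linarith
  have h3 : ‖t - v‖ * (7 / 8 * ‖D‖) ≤ 9 / 4 * (‖δ‖ * ‖D‖) := by
    refine le_trans (mul_le_mul_of_nonneg_left h2 (norm_nonneg _)) ?_
    rw [← norm_mul, e8]
    exact h1
  have h4 : ‖t - v‖ * (7 / 8) ≤ 9 / 4 * ‖δ‖ := by
    by_contra hcon
    push Not at hcon
    have := mul_lt_mul_of_pos_right hcon hDn
    nlinarith
  nlinarith [norm_nonneg δ]

theorem CLO (hWPU : WP.WPU_stmt) (hMOB : MOB_stmt) (hHDI : HDI_stmt) (hKO0 : V3.KO0_stmt)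
    (hKO1 : V3.KO1_stmt) (hKO3 : V3.KO3_stmt) : CLO_stmt := by
  intro n hn r hr l hl
  obtain ⟨ε₀, hε₀, hW⟩ := hWPU n hn r hr
  obtain ⟨K₁, hK₁, hko1⟩ := hKO1
  obtain ⟨K₃, hK₃, hko3⟩ := hKO3 (1 / 2) (by norm_num) (by norm_num)
  have hK₁0 : 0 < K₁ := by linarith
  have hK₃0 : 0 < K₃ := by linarith
  set ρ₁ : ℝ := min l 1 / (2 * K₁) with hρ₁
  have hρ₁0 : 0 < ρ₁ := by positivity
  have hρ₁h : ρ₁ ≤ 1 / 2 := by
    rw [hρ₁, div_le_iff₀ (by positivity)]
    have := min_le_right l 1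
    linarith
  set ε : ℝ := min ε₀ 1 with hε
  have hε0 : 0 < ε := by positivity
  have hεε : ε ≤ ε₀ := min_le_left _ _
  have hε1 : ε ≤ 1 := min_le_right _ _
  set η : ℝ := ε * ρ₁ / (64 * (K₁ * K₃)) with hη
  have hKK : 1 ≤ K₁ * K₃ := by nlinarith
  have hη0 : 0 < η := by positivity
  -- bounds of η
  have b1 : 64 * (K₁ * K₃) * η = ε * ρ₁ := by
    rw [hη]; field_simp
  have b2 : 64 * η ≤ ε * ρ₁ := by nlinarith
  have b3 : 64 * K₃ * η ≤ ε * ρ₁ := by
    have : K₃ ≤ K₁ * K₃ := by nlinarith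
    nlinarith
  have b4 : η ≤ 1 / 128 := by nlinarith
  refine ⟨η, hη0, ?_⟩
  intro c hc hdisj V φ hφ H H' m hm hH hH' hlH hrel hT hclose
  have hop : IsOpen UD := isOpen_ball
  have h0 : (0 : ℂ) ∈ UD := mem_ball_self one_pos
  have hUD : ∀ x : ℂ, x ∈ UD ↔ ‖x‖ < 1 := fun x => by simp [UD]
  set a : ℂ := H 0 with ha
  set a' : ℂ := H' 0 with ha'
  have haU : a ∈ UD := hH.map h0
  have ha'U : a' ∈ UD := hH'.map h0
  obtain ⟨m1, m2, m3, m4, m5, m6, m7, -, -, -, -, -⟩ := hMOB a haU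
  obtain ⟨q1, q2, q3, q4, q5, q6, q7, -, -, -, -, -⟩ := hMOB a' ha'U
  -- the normalised maps
  set G : ℂ → ℂ := fun x => T a (H x) with hG
  set G' : ℂ → ℂ := fun x => T a' (H' x) with hG'
  have hGd : DifferentiableOn ℂ G UD := m4.comp hH.dif hH.map
  have hGm : MapsTo G UD UD := fun x hx => (m1 _ (hH.map hx)).1
  have hGi : InjOn G UD := m6.comp hH.inj hH.map
  have hG'd : DifferentiableOn ℂ G' UD := q4.comp hH'.dif hH'.map
  have hG'm : MapsTo G' UD UD := fun x hx => (q1 _ (hH'.map hx)).1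
  have hG0 : G 0 = 0 := m2
  have hG'0 : G' 0 = 0 := q2
  have hGder : l ≤ ‖deriv G 0‖ := by
    have e1 := (hHDI.1 a H 0 haU (hH.dif.differentiableAt (hop.mem_nhds h0)) haU).1
    have e2 : hd G 0 = ‖deriv G 0‖ := by
      unfold hd
      rw [hG0]
      simp
    rw [← e2]
    change l ≤ hd (fun z => T a (H z)) 0
    rw [e1]
    exact hlH
  -- Schwarz for G'
  have hG'h : ∀ x : ℂ, ‖x‖ ≤ 1 / 2 → ‖G' x‖ ≤ 1 / 2 := by
    intro x hx
    have e1 : ‖G' x‖ ≤ ‖x‖ := by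
      have hm' : MapsTo G' (ball 0 1) (closedBall 0 1) := fun z hz => ball_subset_closedBall (hG'm hz)
      exact Complex.norm_le_norm_of_mapsTo_ball hG'd hm' hG'0 (by linarith)
    linarith
  -- inverse of G
  obtain ⟨X, hX1, hX2⟩ := CLO_inv hKO0 hGd hGi
  have hcov : ∀ u ∈ ball (0 : ℂ) ρ₁, ∃ x : ℂ, ‖x‖ < 1 / 2 ∧ G x = u := by
    intro u hu
    have e1 := hko1 G 0 (1 / 2) (by norm_num) (hGd.mono (ball_subset_ball (by norm_num)))
      (hGi.mono (ball_subset_ball (by norm_num)))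
    rw [hG0] at e1
    have e2 : ρ₁ ≤ 1 / 2 * ‖deriv G 0‖ / K₁ := by
      rw [hρ₁, div_le_div_iff₀ (by positivity) hK₁0]
      have := min_le_left l 1
      have e3 : min l 1 ≤ ‖deriv G 0‖ := this.trans hGder
      nlinarith
    obtain ⟨x, hx, hxu⟩ := e1 (ball_subset_ball e2 hu)
    exact ⟨x, by simpa using hx, hxu⟩
  set g : ℂ → ℂ := fun u => T a (H' (X u)) with hg
  have hgprop : ∀ u ∈ ball (0 : ℂ) ρ₁, ∃ x : ℂ, ‖x‖ < 1 / 2 ∧ G x = u ∧ X u = x := by
    intro u hu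
    obtain ⟨x, hx, hxu⟩ := hcov u hu
    refine ⟨x, hx, hxu, ?_⟩
    rw [← hxu]
    exact hX1 x ((hUD x).2 (by linarith))
  have hgd : DifferentiableOn ℂ g (ball 0 ρ₁) := by
    intro u hu
    obtain ⟨x, hx, hxu, hXu⟩ := hgprop u hu
    have hxU : x ∈ UD := (hUD x).2 (by linarith)
    have e1 : DifferentiableAt ℂ X u := by rw [← hxu]; exact hX2 x hxU
    have e2 : DifferentiableAt ℂ H' (X u) := by
      rw [hXu]; exact hH'.dif.differentiableAt (hop.mem_nhds hxU)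
    have e3 : DifferentiableAt ℂ (T a) (H' (X u)) := by
      rw [hXu]; exact m4.differentiableAt (hop.mem_nhds (hH'.map hxU))
    have e4 : DifferentiableAt ℂ (fun u => H' (X u)) u := DifferentiableAt.comp u e2 e1
    exact (DifferentiableAt.comp u e3 e4).differentiableWithinAt
  have hgm : ∀ u ∈ ball (0 : ℂ) ρ₁, g u ∈ UD := by
    intro u hu
    obtain ⟨x, hx, hxu, hXu⟩ := hgprop u hu
    have hxU : x ∈ UD := (hUD x).2 (by linarith)
    simp only [hg, hXu]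
    exact (m1 _ (hH'.map hxU)).1
  have hgn : ∀ u ∈ ball (0 : ℂ) ρ₁, ‖g u - u‖ ≤ 4 * η := by
    intro u hu
    obtain ⟨x, hx, hxu, hXu⟩ := hgprop u hu
    have hxU : x ∈ UD := (hUD x).2 (by linarith)
    have hH'x : H' x ∈ UD := hH'.map hxU
    have e1 : ‖T a (H' x) - T a' (H' x)‖ ≤ 3 * ‖T a a'‖ := by
      refine CLO_mob a a' (H' x) ((hUD a).1 haU) ((hUD a').1 ha'U) ((hUD _).1 hH'x) ?_ ?_
      · exact hT.trans (by linarith)
      · exact hG'h x hx.le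
    have e2 : ‖T a (H x) - T a' (H' x)‖ ≤ η := by
      apply hclose x
      rw [mem_closedBall_zero_iff]
      exact hx.le
    have e3 : g u - u = (T a (H' x) - T a' (H' x)) - (T a (H x) - T a' (H' x)) := by
      simp only [hg, hXu]
      rw [← hxu]
      simp only [hG]
      ring
    rw [e3]
    refine (norm_sub_le _ _).trans ?_
    linarith
  -- the functional equation
  set Φ : ℂ → ℂ := fun x => φ (S a x) with hΦ
  have hΦd : DifferentiableOn ℂ Φ UD := hφ.dif.comp m5 (fun x hx => (m1 x hx).2.1)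
  have hΦi : InjOn Φ UD := hφ.inj.comp m7 (fun x hx => (m1 x hx).2.1)
  have hΦ0 : Φ 0 = φ a := by simp only [hΦ]; rw [m3]
  have hfeq : ∀ u ∈ ball (0 : ℂ) ρ₁, (fz n c)^[m] (Φ u) = Φ (g u) := by
    intro u hu
    obtain ⟨x, hx, hxu, hXu⟩ := hgprop u hu
    have hxU : x ∈ UD := (hUD x).2 (by linarith)
    have hH'x : H' x ∈ UD := hH'.map hxU
    have e1 : Φ u = φ (H x) := by
      simp only [hΦ]
      rw [← hxu]
      simp only [hG]
      rw [(m1 _ (hH.map hxU)).2.2.1]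
    have e2 : Φ (g u) = φ (H' x) := by
      simp only [hΦ, hg, hXu]
      rw [(m1 _ hH'x).2.2.1]
    rw [e1, e2]
    exact hrel x hxU
  -- derivative of g
  have hg1 : ∀ u ∈ ball (0 : ℂ) (ρ₁ / 2), ‖deriv g u - 1‖ ≤ 16 * η / ρ₁ := by
    intro u hu
    have hsub : ball u (ρ₁ / 2) ⊆ ball (0 : ℂ) ρ₁ := by
      intro z hz
      rw [mem_ball, dist_eq_norm] at hz hu
      rw [sub_zero] at hu
      rw [mem_ball_zero_iff]
      have := norm_add_le (z - u) u
      rw [sub_add_cancel] at this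
      linarith
    have hdu : DifferentiableOn ℂ (fun z => g z - z) (ball u (ρ₁ / 2)) :=
      (hgd.mono hsub).sub differentiableOn_id
    have e1 : ‖deriv (fun z => g z - z) u‖ ≤ 4 * η / (ρ₁ / 4) := by
      have hcl : closedBall u (ρ₁ / 4) ⊆ ball u (ρ₁ / 2) :=
        closedBall_subset_ball (by linarith)
      refine Complex.norm_deriv_le_of_forall_mem_sphere_norm_le (by positivity)
        ((hdu.mono hcl).diffContOnCl_ball (Subset.refl _)) ?_
      intro z hz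
      exact hgn z (hsub (hcl (sphere_subset_closedBall hz)))
    have hgu : DifferentiableAt ℂ g u :=
      hgd.differentiableAt (isOpen_ball.mem_nhds (hsub (mem_ball_self (by positivity))))
    have e2 : deriv (fun z => g z - z) u = deriv g u - 1 := by
      have := (hgu.hasDerivAt.sub (hasDerivAt_id u)).deriv
      exact this
    rw [e2] at e1
    refine e1.trans (le_of_eq ?_)
    field_simp
    ring
  have b5 : 16 * η / ρ₁ ≤ ε / 4 := by
    rw [div_le_iff₀ hρ₁0]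
    linarith
  -- g is injective
  have hginj : InjOn g (ball 0 (ρ₁ / 2)) := by
    intro u hu u' hu' heq
    by_contra hne
    have hd : ∀ z ∈ ball (0 : ℂ) (ρ₁ / 2), HasDerivWithinAt (fun z => g z - z) (deriv g z - 1)
        (ball 0 (ρ₁ / 2)) z := by
      intro z hz
      have hgz : DifferentiableAt ℂ g z :=
        hgd.differentiableAt (isOpen_ball.mem_nhds (ball_subset_ball (by linarith) hz))
      exact (hgz.hasDerivAt.sub (hasDerivAt_id z)).hasDerivWithinAt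
    have e1 := (convex_ball (0 : ℂ) (ρ₁ / 2)).norm_image_sub_le_of_norm_hasDerivWithin_le
      hd (fun z hz => (hg1 z hz).trans b5) hu hu'
    have e2 : (g u' - u') - (g u - u) = -(u' - u) := by rw [heq]; ring
    rw [e2, norm_neg] at e1
    have e3 : 0 < ‖u' - u‖ := norm_pos_iff.mpr (sub_ne_zero.mpr (Ne.symm hne))
    nlinarith
  -- the disc
  have hΦ'0 : deriv Φ 0 ≠ 0 := hKO0 Φ UD hop hΦd hΦi 0 h0
  have hΦp : 0 < ‖deriv Φ 0‖ := norm_pos_iff.mpr hΦ'0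
  set ρ : ℝ := ρ₁ / 2 * ‖deriv Φ 0‖ / K₁ with hρ
  have hρ0 : 0 < ρ := by positivity
  have hρs : ball (Φ 0) ρ ⊆ Φ '' ball 0 (ρ₁ / 2) :=
    hko1 Φ 0 (ρ₁ / 2) (by positivity) (hΦd.mono (ball_subset_ball (by linarith)))
      (hΦi.mono (ball_subset_ball (by linarith)))
  have h0ρ : (0 : ℂ) ∈ ball (0 : ℂ) ρ₁ := mem_ball_self hρ₁0
  have h0ρ2 : (0 : ℂ) ∈ ball (0 : ℂ) (ρ₁ / 2) := mem_ball_self (by positivity)
  have hg0n : ‖g 0‖ ≤ 4 * η := by
    have := hgn 0 h0ρ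
    rwa [sub_zero] at this
  have hk := (hko3 Φ 0 1 one_pos hΦd hΦi).2 (g 0) (by
    rw [mem_ball_zero_iff]; linarith)
  obtain ⟨-, -, hk1, hk2⟩ := hk
  rw [sub_zero] at hk1 hk2
  refine hW c hc hdisj m (Φ 0) ρ hm hρ0 ?_ ?_ ?_
  · -- injectivity
    intro z hz z' hz' heq
    obtain ⟨u, hu, rfl⟩ := hρs hz
    obtain ⟨u', hu', rfl⟩ := hρs hz'
    have hu1 : u ∈ ball (0 : ℂ) ρ₁ := ball_subset_ball (by linarith) hu
    have hu1' : u' ∈ ball (0 : ℂ) ρ₁ := ball_subset_ball (by linarith) hu'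
    change (fz n c)^[m] (Φ u) = (fz n c)^[m] (Φ u') at heq
    rw [hfeq u hu1, hfeq u' hu1'] at heq
    have e1 := hΦi (hgm u hu1) (hgm u' hu1') heq
    rw [hginj hu hu' e1]
  · change ‖(fz n c)^[m] (Φ 0) - Φ 0‖ ≤ ε₀ * ρ
    rw [hfeq 0 h0ρ]
    refine hk1.trans ?_
    have e1 : K₃ * ‖g 0‖ * ‖deriv Φ 0‖ ≤ K₃ * (4 * η) * ‖deriv Φ 0‖ := by gcongr
    refine e1.trans ?_
    have e2 : ε₀ * ρ = (ε₀ * ρ₁ / (2 * K₁)) * ‖deriv Φ 0‖ := by
      rw [hρ]; field_simp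
    rw [e2]
    refine mul_le_mul_of_nonneg_right ?_ hΦp.le
    rw [le_div_iff₀ (by positivity)]
    have e3 : ε * ρ₁ ≤ ε₀ * ρ₁ := mul_le_mul_of_nonneg_right hεε hρ₁0.le
    nlinarith
  · change ‖deriv ((fz n c)^[m]) (Φ 0) - 1‖ ≤ ε₀
    have hfd : Differentiable ℂ (fz n c) := by
      unfold fz
      fun_prop
    have hfmd : Differentiable ℂ ((fz n c)^[m]) := hfd.iterate m
    have hgd0 : DifferentiableAt ℂ g 0 := hgd.differentiableAt (isOpen_ball.mem_nhds h0ρ)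
    have hΦd0 : DifferentiableAt ℂ Φ 0 := hΦd.differentiableAt (hop.mem_nhds h0)
    have hΦdg : DifferentiableAt ℂ Φ (g 0) := hΦd.differentiableAt (hop.mem_nhds (hgm 0 h0ρ))
    have e1 : deriv (fun u => (fz n c)^[m] (Φ u)) 0 = deriv ((fz n c)^[m]) (Φ 0) * deriv Φ 0 := by
      have := (hfmd (Φ 0)).hasDerivAt.comp (0 : ℂ) hΦd0.hasDerivAt
      exact this.deriv
    have e2 : deriv (fun u => Φ (g u)) 0 = deriv Φ (g 0) * deriv g 0 := by
      have := hΦdg.hasDerivAt.comp (0 : ℂ) hgd0.hasDerivAt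
      exact this.deriv
    have e3 : deriv (fun u => (fz n c)^[m] (Φ u)) 0 = deriv (fun u => Φ (g u)) 0 := by
      apply Filter.EventuallyEq.deriv_eq
      filter_upwards [isOpen_ball.mem_nhds h0ρ] with u hu
      exact hfeq u hu
    rw [e1, e2] at e3
    have e4 : deriv ((fz n c)^[m]) (Φ 0) = deriv Φ (g 0) / deriv Φ 0 * deriv g 0 := by
      field_simp
      exact e3
    rw [e4]
    set A : ℂ := deriv Φ (g 0) / deriv Φ 0 with hA
    set Bg : ℂ := deriv g 0 with hBg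
    have hA1 : ‖A - 1‖ ≤ 4 * K₃ * η := by
      have k1 : A - 1 = (deriv Φ (g 0) - deriv Φ 0) / deriv Φ 0 := by
        rw [hA]; field_simp
      rw [k1, norm_div, div_le_iff₀ hΦp]
      refine hk2.trans ?_
      rw [div_one]
      refine mul_le_mul_of_nonneg_right ?_ hΦp.le
      nlinarith
    have hB1 : ‖Bg - 1‖ ≤ ε / 4 := (hg1 0 h0ρ2).trans b5
    have hB2 : ‖Bg‖ ≤ 2 := by
      have := norm_add_le (Bg - 1) 1
      rw [sub_add_cancel, norm_one] at this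
      linarith
    have e5 : A * Bg - 1 = (A - 1) * Bg + (Bg - 1) := by ring
    rw [e5]
    have e6 : ‖(A - 1) * Bg‖ ≤ 4 * K₃ * η * 2 := by
      rw [norm_mul]
      exact mul_le_mul hA1 hB2 (norm_nonneg _) (by positivity)
    have e7 : 64 * K₃ * η ≤ ε * (1 / 2) := b3.trans (mul_le_mul_of_nonneg_left hρ₁h hε0.le)
    refine (norm_add_le _ _).trans ?_
    linarith

end HY
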